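import Mathlib
import Pool.Agent.Lib.Helper4.Sumset.Main

/-!
# The density threshold for shifted sumsets `{m b₁ + ℓ b₂ : b₁ ≠ b₂} + t`

Let `ℓ > m ≥ 1`. Every `A ⊆ ℕ` of upper density larger than `ℓ / (ℓ + m)` contains
`S_{m,ℓ}(B) + t` for some infinite set `B` of positive integers and some positive integer `t`.
-/

namespace Pool.Agent.Results.MP_91b3c5_co.ShiftedSumset

/-- The upper density `limsup_{N → ∞} |A ∩ {1, …, N}| / N` of a set of natural numbers. -/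
noncomputable def upperDensity (A : Set ℕ) : ℝ :=
  Filter.limsup (fun N : ℕ => ((A ∩ Set.Icc 1 N).ncard : ℝ) / N) Filter.atTop

/-- The sumset `S_{m,ℓ}(B) = {m b₁ + ℓ b₂ : b₁, b₂ ∈ B, b₁ ≠ b₂}` (ordered pairs). -/
def sumset (m l : ℕ) (B : Set ℕ) : Set ℕ :=
  {x | ∃ b₁ ∈ B, ∃ b₂ ∈ B, b₁ ≠ b₂ ∧ x = m * b₁ + l * b₂}

theorem result (l m : ℕ) (hm : 1 ≤ m) (hml : m < l) (A : Set ℕ)
    (hA : (l : ℝ) / (l + m) < upperDensity A) :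
    ∃ B : Set ℕ, B.Infinite ∧ (∀ b ∈ B, 1 ≤ b) ∧
      ∃ t : ℕ, 1 ≤ t ∧ ∀ x ∈ sumset m l B, x + t ∈ A := by
  obtain ⟨B, hB, hB1, t, ht, h⟩ := Pool.Agent.Helper4.Sumset.question_one hm hml.le A hA
  refine ⟨B, hB, hB1, t, ht, ?_⟩
  rintro _ ⟨b₁, hb₁, b₂, hb₂, hne, rfl⟩
  exact h b₁ hb₁ b₂ hb₂ hne

end Pool.Agent.Results.MP_91b3c5_co.ShiftedSumset
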